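import Pool.Agent.MP_c1891a_nt.H43.Spec
import Pool.Agent.MP_c1891a_nt.H88.Elim

/-
Elimination of the outer variable by a resultant, with bounds for degree and Mahler measure.
-/

namespace Pool.Agent.MP_c1891a_nt.H43

open Finset Polynomial Module Filter Topology

theorem res_mah {f : ℂ[X]} {B : ℝ} (hB : 1 ≤ B) (h : ∀ x : ℂ, ‖x‖ = 1 → ‖f.eval x‖ ≤ B) :
    f.mahlerMeasure ≤ B := by
  by_cases hf : f = 0
  · rw [hf, mahlerMeasure_zero]; linarith
  have h1 : f.logMahlerMeasure ≤ Real.log B := by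
    rw [logMahlerMeasure_def]
    refine Real.circleAverage_mono_on_of_le_circle f.intervalIntegrable_mahlerMeasure fun x hx => ?_
    have h2 : ‖x‖ = 1 := by simpa using hx
    rcases (norm_nonneg (f.eval x)).eq_or_lt with h3 | h3
    · rw [← h3, Real.log_zero]; exact Real.log_nonneg hB
    · exact Real.log_le_log h3 (h x h2)
  rw [logMahlerMeasure_eq_log_MahlerMeasure] at h1
  exact (Real.log_le_log_iff (mahlerMeasure_pos_of_ne_zero hf) (by linarith)).1 h1

theorem res_det {n : Type} [Fintype n] [DecidableEq n] (A : Matrix n n ℂ) :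
    ‖A.det‖ ≤ ∏ j, ∑ i, ‖A i j‖ := by
  rw [Matrix.det_apply', prod_univ_sum, Fintype.piFinset_univ]
  refine (norm_sum_le _ _).trans ?_
  have h1 : ∀ σ : Equiv.Perm n, ‖((Equiv.Perm.sign σ : ℤ) : ℂ) * ∏ i, A (σ i) i‖ =
      ∏ i, ‖A (σ i) i‖ := fun σ => by
    rw [norm_mul, norm_prod]
    rcases Int.units_eq_one_or (Equiv.Perm.sign σ) with h | h <;> simp [h]
  simp only [h1]
  rw [← sum_image (s := univ) (g := fun σ : Equiv.Perm n => (σ : n → n))
    (f := fun φ : n → n => ∏ i, ‖A (φ i) i‖) fun σ _ τ _ e => DFunLike.coe_injective e]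
  exact sum_le_sum_of_subset_of_nonneg (subset_univ _) fun φ _ _ =>
    prod_nonneg fun i _ => norm_nonneg _

theorem res_l1_nonneg (f : ℂ[X]) : 0 ≤ l1 f := sum_nonneg fun _ _ => norm_nonneg _

theorem res_l1_eval (f : ℂ[X]) {x : ℂ} (hx : ‖x‖ = 1) : ‖f.eval x‖ ≤ l1 f := by
  rw [eval_eq_sum, Polynomial.sum]
  exact norm_sum_le_of_le _ fun i _ => by simp [hx]

theorem res_l2 (F : ℂ[X][X]) (e : ℕ) (s : Finset ℕ) : ∑ k ∈ s, l1 (F.coeff (k + e)) ≤ l2 F := by
  classical
  rw [← sum_image (s := s) (g := fun k => k + e) (f := fun k => l1 (F.coeff k))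
    fun a _ b _ h => Nat.add_right_cancel h, l2]
  refine (sum_le_sum_of_subset_of_nonneg (subset_union_left (s₂ := F.support))
    fun i _ _ => res_l1_nonneg _).trans (sum_subset subset_union_right fun i _ hi => ?_).ge
  rw [notMem_support_iff.1 hi]
  simp [l1]

theorem res_col {p : ℂ[X]} {H : ℝ} (h : ∀ s : Finset ℕ, ∑ k ∈ s, ‖p.coeff k‖ ≤ H) (N j d : ℕ) :
    ∑ i : Fin N, ‖if (i : ℕ) ∈ Set.Icc j (j + d) then p.coeff (i - j) else 0‖ ≤ H := by
  classical
  have h1 : ∀ i : Fin N, ‖if (i : ℕ) ∈ Set.Icc j (j + d) then p.coeff (i - j) else 0‖ =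
      if (i : ℕ) ∈ Set.Icc j (j + d) then ‖p.coeff (i - j)‖ else 0 := fun i => by
    split_ifs <;> simp
  simp only [h1]
  rw [← sum_filter, ← sum_image (g := fun i : Fin N => (i : ℕ) - j) (f := fun k => ‖p.coeff k‖)
    fun a ha b hb e => ?_]
  · exact h _
  · have h2 := (mem_filter.1 ha).2.1
    have h3 := (mem_filter.1 hb).2.1
    simp only at e
    exact Fin.ext (by omega)

theorem res_bound {F G : ℂ[X][X]} {H : ℝ} (hH : 1 ≤ H)
    (hF : ∀ s : Finset ℕ, ∑ k ∈ s, l1 (F.coeff k) ≤ H)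
    (hG : ∀ s : Finset ℕ, ∑ k ∈ s, l1 (G.coeff k) ≤ H) (m n : ℕ) :
    (resultant F G m n).mahlerMeasure ≤ H ^ (m + n) := by
  refine res_mah (one_le_pow₀ hH) fun x hx => ?_
  have key : ∀ P : ℂ[X][X], (∀ s : Finset ℕ, ∑ k ∈ s, l1 (P.coeff k) ≤ H) →
      ∀ s : Finset ℕ, ∑ k ∈ s, ‖(P.map (evalRingHom x)).coeff k‖ ≤ H := fun P hP s =>
    (sum_le_sum fun k _ => by rw [coeff_map]; exact res_l1_eval _ hx).trans (hP s)
  rw [← coe_evalRingHom, ← resultant_map_map, resultant]
  refine (res_det _).trans ((prod_le_prod (fun j _ => sum_nonneg fun i _ => norm_nonneg _)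
    (g := fun _ => H) fun j _ => ?_).trans (by simp))
  induction j using Fin.addCases with
  | left j =>
    simp only [sylvester, Matrix.of_apply, Fin.addCases_left]
    exact res_col (key G hG) (m + n) j n
  | right j =>
    simp only [sylvester, Matrix.of_apply, Fin.addCases_right]
    exact res_col (key F hF) (m + n) j m

theorem res_int {L : Type} [Field L] {f g : L[X][X]} (hf : ∀ j, IntC (f.coeff j))
    (hg : ∀ j, IntC (g.coeff j)) (m n : ℕ) : IntC (resultant f g m n) := by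
  let S : Subring L[X] :=
    { carrier := {f | IntC f}
      mul_mem' := fun {u v} hu hv i => by
        rw [coeff_mul]
        exact IsIntegral.sum _ fun c _ => (hu _).mul (hv _)
      one_mem' := fun i => by
        rw [coeff_one]
        split_ifs
        exacts [isIntegral_one, isIntegral_zero]
      add_mem' := fun {u v} hu hv i => by
        rw [coeff_add]
        exact (hu _).add (hv _)
      zero_mem' := fun i => by
        rw [coeff_zero]
        exact isIntegral_zero
      neg_mem' := fun {u} hu i => by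
        rw [coeff_neg]
        exact (hu _).neg }
  change resultant f g m n ∈ S
  rw [resultant, Matrix.det_apply']
  refine S.sum_mem fun σ _ => S.mul_mem (intCast_mem S _) (S.prod_mem fun j _ => ?_)
  induction j using Fin.addCases <;> simp only [sylvester, Matrix.of_apply, Fin.addCases_left,
    Fin.addCases_right] <;> split_ifs
  exacts [hg _, S.zero_mem, hf _, S.zero_mem]

theorem res_ne {F G : ℂ[X][X]} (hF : F.coeff 0 ≠ 0) (hG : G ≠ 0)
    (h : {z : ℂ × ℂ | z.1 ≠ 0 ∧ z.2 ≠ 0 ∧ F.evalEval z.1 z.2 = 0 ∧ G.evalEval z.1 z.2 = 0}.Finite) :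
    resultant F G ≠ 0 := fun hR => by
  have hF0 : F ≠ 0 := fun e => hF (by rw [e, coeff_zero])
  have hD : F.leadingCoeff * G.leadingCoeff * F.coeff 0 * X ≠ 0 :=
    mul_ne_zero (mul_ne_zero (mul_ne_zero (leadingCoeff_ne_zero.2 hF0)
      (leadingCoeff_ne_zero.2 hG)) hF) X_ne_zero
  refine Set.infinite_univ (α := ℂ) (((h.image Prod.fst).union
    (finite_setOfPred_isRoot hD)).subset fun x _ => ?_)
  by_cases h5 : (F.leadingCoeff * G.leadingCoeff * F.coeff 0 * X).eval x = 0
  · exact Or.inr h5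
  simp only [eval_mul, eval_X, mul_eq_zero, not_or] at h5
  have h6 := resultant_map_map F G F.natDegree G.natDegree (evalRingHom x)
  rw [hR, map_zero, ← natDegree_map_of_leadingCoeff_ne_zero (evalRingHom x) h5.1.1.1,
    ← natDegree_map_of_leadingCoeff_ne_zero (evalRingHom x) h5.1.1.2, resultant_eq_zero_iff,
    isCoprime_iff_aeval_ne_zero_of_isAlgClosed ℂ ℂ] at h6
  obtain ⟨y, h7⟩ := not_forall.1 h6.2
  simp only [coe_aeval_eq_eval, map_evalRingHom_eval, not_or, not_not] at h7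
  have h8 : y ≠ 0 := fun e => h5.1.2 (by simpa [e, evalEval, ← coeff_zero_eq_eval_zero] using h7.1)
  exact Or.inl ⟨(x, y), ⟨h5.2, h8, h7.1, h7.2⟩, rfl⟩

theorem res_dvd {F G : ℂ[X][X]} {m n : ℕ} (hF : F.natDegree ≤ m) (hG : G.natDegree ≤ n)
    (hR : resultant F G m n ≠ 0) {ι : Type} (s : Finset ι) (u v : ι → ℂ)
    (hinj : ∀ i ∈ s, ∀ j ∈ s, u i = u j → v i = v j → i = j)
    (hz : ∀ i ∈ s, F.evalEval (u i) (v i) = 0 ∧ G.evalEval (u i) (v i) = 0)
    (hs : ∀ i ∈ s, F.map (evalRingHom (u i)) ≠ 0 ∨ G.map (evalRingHom (u i)) ≠ 0) :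
    ∏ i ∈ s, (X - C (u i)) ∣ resultant F G m n := by
  classical
  have h1 : ∏ i ∈ s, (X - C (u i)) = ((s.val.map u).map fun a => X - C a).prod := by
    rw [Multiset.map_map]; rfl
  rw [h1, Multiset.prod_X_sub_C_dvd_iff_le_roots hR]
  refine Multiset.le_iff_count.2 fun x => ?_
  rw [Multiset.count_map, count_roots, le_rootMultiplicity_iff hR, ← filter_val, ← card_def,
    ← card_image_of_injOn (f := v) fun i hi j hj e => hinj i (mem_filter.1 hi).1 j
      (mem_filter.1 hj).1 ((mem_filter.1 hi).2.symm.trans (mem_filter.1 hj).2) e]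
  have h3 : ∀ y ∈ (s.filter fun i => x = u i).image v,
      F.evalEval x y = 0 ∧ G.evalEval x y = 0 := fun y hy => by
    obtain ⟨i, h3, rfl⟩ := mem_image.1 hy
    obtain ⟨h4, rfl⟩ := mem_filter.1 h3
    exact hz i h4
  refine H91.Elim.pow_dvd hF hG x _ ?_ h3
  have key : ∀ P : ℂ[X][X], P.map (evalRingHom x) ≠ 0 → (∀ y ∈ (s.filter fun i => x = u i).image
      v, P.evalEval x y = 0) → ((s.filter fun i => x = u i).image v).card ≤
        P.natDegree := fun P h4 h5 => (card_le_degree_of_subset_roots fun y hy =>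
      (mem_roots h4).2 ((map_evalRingHom_eval x y P).trans (h5 y hy))).trans natDegree_map_le
  rcases (s.filter fun i => x = u i).eq_empty_or_nonempty with h4 | ⟨i, hi⟩
  · simp [h4]
  obtain ⟨h4, h5⟩ := mem_filter.1 hi
  rcases hs i h4 with h6 | h6 <;> rw [← h5] at h6
  · exact ((key F h6 fun y hy => (h3 y hy).1).trans hF).trans (Nat.le_add_right _ _)
  · exact ((key G h6 fun y hy => (h3 y hy).2).trans hG).trans (Nat.le_add_left _ _)

theorem res_comp {L K : Type} [Field L] [Field K] (φ : L →+* K) (σ : K →+* ℂ) (f : L[X][X]) :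
    f.map (mapRingHom (σ.comp φ)) = (f.map (mapRingHom φ)).map (mapRingHom σ) := by
  rw [Polynomial.map_map, mapRingHom_comp]

theorem res_slice {K : Type} [Field K] (σ : K →+* ℂ) (f : K[X][X]) (p : K) :
    (f.map (mapRingHom σ)).map (evalRingHom (σ p)) = (f.map (evalRingHom p)).map σ := by
  ext k
  simp [eval_map, eval₂_at_apply]

theorem sRes (h : SNormP) : SRes := by
  intro L _ _ σ₀ f₁ f₂ a b H h1 h2 hint hdeg hb1 hb2 hH hl hfin
  classical
  obtain ⟨e, g, rfl, hg⟩ : ∃ e g, f₁ = X ^ e * g ∧ g.coeff 0 ≠ 0 := by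
    obtain ⟨g, h3, h4⟩ := exists_eq_pow_rootMultiplicity_mul_and_not_dvd f₁ h1 0
    rw [C_0, sub_zero] at h3 h4
    exact ⟨_, g, h3, mt X_dvd_iff.2 h4⟩
  have hco : ∀ k, g.coeff k = (X ^ e * g).coeff (k + e) := fun k => (coeff_X_pow_mul g e k).symm
  have hinj : ∀ {K : Type} [Field K] (σ : L →+* K), Function.Injective (mapRingHom σ) :=
    fun σ => Polynomial.map_injective σ σ.injective
  have hev : ∀ {K : Type} [Field K] (σ : L →+* K) (x y : K), y ≠ 0 →
      (((X ^ e * g).map (mapRingHom σ)).evalEval x y = 0 ↔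
        (g.map (mapRingHom σ)).evalEval x y = 0) := fun σ x y hy => by
    simp [evalEval_mul, evalEval_pow, hy]
  have hfin' : {z : ℂ × ℂ | z.1 ≠ 0 ∧ z.2 ≠ 0 ∧ (g.map (mapRingHom σ₀)).evalEval z.1 z.2 = 0 ∧
      (f₂.map (mapRingHom σ₀)).evalEval z.1 z.2 = 0}.Finite :=
    hfin.subset fun z hz => ⟨hz.1, hz.2.1, (hev σ₀ _ _ hz.2.1).2 hz.2.2.1, hz.2.2.2⟩
  have hm : g.natDegree ≤ b := (natDegree_le_of_dvd (dvd_mul_left _ _) h1).trans hb1
  set R := resultant g f₂ g.natDegree f₂.natDegree with hRdef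
  have hmap : ∀ σ : L →+* ℂ, R.map σ =
      resultant (g.map (mapRingHom σ)) (f₂.map (mapRingHom σ)) g.natDegree f₂.natDegree :=
    fun σ => (resultant_map_map g f₂ _ _ (mapRingHom σ)).symm
  have hR : R ≠ 0 := fun e0 => by
    refine res_ne (F := g.map (mapRingHom σ₀)) (G := f₂.map (mapRingHom σ₀)) ?_ ?_ hfin' ?_
    · rw [coeff_map]
      exact fun e1 => hg (hinj σ₀ (e1.trans (map_zero _).symm))
    · exact (Polynomial.map_ne_zero_iff (hinj σ₀)).2 h2
    · rw [natDegree_map_eq_of_injective (hinj σ₀), natDegree_map_eq_of_injective (hinj σ₀),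
        ← hmap, e0, Polynomial.map_zero]
  have hR' : ∀ σ : L →+* ℂ, R.map σ ≠ 0 := fun σ => (Polynomial.map_ne_zero_iff σ.injective).2 hR
  obtain ⟨T, hT⟩ := (h L).2.1 R (res_int (fun j => hco j ▸ (hint _).1) (fun j => (hint j).2) _ _)
  have hcard : Fintype.card (L →+* ℂ) = finrank ℚ L := NumberField.Embeddings.card L ℂ
  refine ⟨T, fun e0 => ?_, ?_, ?_, ?_⟩
  · have h3 : cx T ≠ 0 := hT ▸ prod_ne_zero_iff.2 fun σ _ => hR' σ
    exact h3 (by rw [e0, cx, Polynomial.map_zero])
  · have h3 : T.natDegree = (cx T).natDegree :=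
      (natDegree_map_eq_of_injective (RingHom.injective_int _) T).symm
    rw [h3, hT]
    refine (natDegree_prod_le _ _).trans ((sum_le_card_nsmul _ _ (2 * a * b) fun σ _ => ?_).trans
      (by rw [card_univ, hcard, smul_eq_mul]))
    rw [hmap]
    refine (H91.Elim.deg_le (a := a) (fun i => ?_) (fun i => ?_) _ _).trans ?_
    · rw [coeff_map]
      exact natDegree_map_le.trans (hco i ▸ (hdeg _).1)
    · rw [coeff_map]
      exact natDegree_map_le.trans (hdeg _).2
    · calc (g.natDegree + f₂.natDegree) * a ≤ (b + b) * a :=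
            Nat.mul_le_mul_right a (add_le_add hm hb2)
        _ = 2 * a * b := by ring
  · rw [hT, Finset.prod, prod_mahlerMeasure_eq_mahlerMeasure_prod, Multiset.map_map]
    change ∏ σ : L →+* ℂ, (R.map σ).mahlerMeasure ≤ _
    refine (prod_le_prod (fun σ _ => mahlerMeasure_nonneg _) (g := fun _ => H ^ (2 * b))
      fun σ _ => ?_).trans (by rw [prod_const, card_univ, hcard, ← pow_mul, mul_comm])
    rw [hmap]
    refine (res_bound hH (fun s => ?_) (fun s => ?_) _ _).trans
      (pow_le_pow_right₀ hH (by omega))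
    · refine le_trans (sum_congr rfl fun k _ => ?_).le ((res_l2 _ e s).trans (hl σ).1)
      rw [coeff_map, coeff_map, ← hco]
    · exact (res_l2 _ 0 s).trans (hl σ).2
  · intro K _ _ _ p q hp hq z1 z2 hsep
    rw [hev _ _ _ hq] at z1
    rw [hT, ← prod_fiberwise univ (fun σ : K →+* ℂ => σ.comp (algebraMap L K))]
    refine prod_dvd_prod_of_dvd _ _ fun τ _ => ?_
    have hne : (g.map (mapRingHom (algebraMap L K))).map (evalRingHom p) ≠ 0 ∨
        (f₂.map (mapRingHom (algebraMap L K))).map (evalRingHom p) ≠ 0 := by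
      by_contra hc
      push Not at hc
      have : Algebra.IsAlgebraic L K := Algebra.IsAlgebraic.tower_top (K := ℚ) L
      set σ := NumberField.ComplexEmbedding.lift K σ₀
      have h3 : σ.comp (algebraMap L K) = σ₀ := NumberField.ComplexEmbedding.lift_comp_algebraMap K σ₀
      refine Set.infinite_univ (α := ℂ) (((hfin'.image Prod.snd).union
        (Set.finite_singleton 0)).subset fun y _ => ?_)
      by_cases hy : y = 0
      · exact Or.inr hy
      refine Or.inl ⟨(σ p, y), ⟨(map_ne_zero σ).2 hp, hy, ?_, ?_⟩, rfl⟩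
      · rw [← map_evalRingHom_eval, ← h3, res_comp, res_slice, hc.1]
        simp
      · rw [← map_evalRingHom_eval, ← h3, res_comp, res_slice, hc.2]
        simp
    rw [hmap]
    refine res_dvd natDegree_map_le natDegree_map_le (hmap τ ▸ hR' τ) _ (fun σ : K →+* ℂ => σ p)
      (fun σ => σ q) (fun σ hσ σ' hσ' e1 e2 => hsep σ σ' (fun c => ?_) e1 e2)
      (fun σ hσ => ?_) fun σ hσ => ?_
    · exact RingHom.congr_fun ((mem_filter.1 hσ).2.trans (mem_filter.1 hσ').2.symm) c
    · rw [← (mem_filter.1 hσ).2, res_comp, res_comp, map_mapRingHom_evalEval,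
        map_mapRingHom_evalEval, z1, z2, map_zero]
      exact ⟨rfl, rfl⟩
    · rw [← (mem_filter.1 hσ).2, res_comp, res_comp, res_slice, res_slice]
      exact hne.imp (Polynomial.map_ne_zero_iff σ.injective).2
        (Polynomial.map_ne_zero_iff σ.injective).2

end Pool.Agent.MP_c1891a_nt.H43
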